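import Mathlib
import Pool.Agent.Helper27.CD.Spec

/-! Parts P1 (information set) and P6 (sphere size) for MP_990a44_co. -/

namespace Pool.Agent.Helper61.CD

open Helper27.CD Finset

lemma sq_cast (x y : ZMod 3) : ((if x ≠ y then 1 else 0 : ℕ) : ZMod 3) = (x - y) ^ 2 := by
  revert x y; decide

lemma cast_dist {ι : Type} [Fintype ι] [DecidableEq ι] (a b : ι → ZMod 3) :
    ((hammingDist a b : ℕ) : ZMod 3) = ∑ i, (a i - b i) ^ 2 := by
  unfold hammingDist
  rw [Finset.card_filter, Nat.cast_sum]
  exact Finset.sum_congr rfl fun i _ => sq_cast _ _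

theorem info : S_info := by
  intro ι _ _ A B hAB
  classical
  have horth : ∀ a ∈ A, ∀ a' ∈ A, ∀ b ∈ B, ∀ b' ∈ B,
      ∑ i, (a i - a' i) * (b i - b' i) = 0 := by
    intro a ha a' ha' b hb b' hb'
    have h := hAB a ha a' ha' b hb b' hb'
    have h2 := congrArg (fun n : ℕ => (n : ZMod 3)) h
    simp only [Nat.cast_add, cast_dist] at h2
    rw [← Finset.sum_add_distrib, ← Finset.sum_add_distrib, ← sub_eq_zero,
      ← Finset.sum_sub_distrib] at h2
    rw [← h2]
    refine Finset.sum_congr rfl fun i _ => ?_
    generalize a i = x
    generalize a' i = x'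
    generalize b i = y
    generalize b' i = y'
    revert x x' y y'
    decide
  set Q : Finset ι → Prop := fun I => ∀ u : ι → ZMod 3,
    (∀ b ∈ B, ∀ b' ∈ B, ∑ i, u i * (b i - b' i) = 0) → (∀ i ∈ I, u i = 0) → u = 0 with hQ
  have huniv : Q univ := by
    intro u _ h
    funext i
    exact h i (mem_univ i)
  obtain ⟨I, hI, hmin⟩ := (univ.filter Q).exists_min_image Finset.card
    ⟨univ, mem_filter.mpr ⟨mem_univ _, huniv⟩⟩
  have hIQ : Q I := (mem_filter.mp hI).2
  refine ⟨I, ?_, ?_⟩
  · intro a ha a' ha' h
    have := hIQ (fun i => a i - a' i) (fun b hb b' hb' => horth a ha a' ha' b hb b' hb')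
      (fun i hi => by simp [h i hi])
    funext i
    exact sub_eq_zero.mp (congrFun this i)
  · intro b hb b' hb' h
    by_contra hne
    obtain ⟨i0, hi0⟩ := Function.ne_iff.mp hne
    have hi0I : i0 ∈ I := by
      by_contra hc
      exact hi0 (h i0 hc)
    have hQ' : Q (I.erase i0) := by
      intro u hu hz
      apply hIQ u hu
      intro i hi
      by_cases hii : i = i0
      · have h0 := hu b hb b' hb'
        rw [Finset.sum_eq_single i0] at h0
        · rcases mul_eq_zero.mp h0 with h0 | h0
          · rw [hii]; exact h0
          · exact absurd (sub_eq_zero.mp h0) hi0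
        · intro j _ hj
          by_cases hjI : j ∈ I
          · rw [hz j (mem_erase.mpr ⟨hj, hjI⟩), zero_mul]
          · rw [h j hjI, sub_self, mul_zero]
        · intro hc
          exact absurd (mem_univ _) hc
      · exact hz i (mem_erase.mpr ⟨hii, hi⟩)
    have h1 := hmin (I.erase i0) (mem_filter.mpr ⟨mem_univ _, hQ'⟩)
    have h2 := Finset.card_erase_lt_of_mem hi0I
    omega

theorem sphere : S_sphere := by
  intro ι _ _ c k
  classical
  have hfib : ∀ S : Finset ι,
      ((univ : Finset (ι → ZMod 3)).filter
        (fun a => univ.filter (fun i => a i ≠ c i) = S)).card = 2 ^ S.card := by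
    intro S
    have : (univ : Finset (ι → ZMod 3)).filter (fun a => univ.filter (fun i => a i ≠ c i) = S)
        = Fintype.piFinset (fun i => if i ∈ S then (univ : Finset (ZMod 3)).erase (c i) else {c i}) := by
      ext a
      simp only [mem_filter, mem_univ, true_and, Fintype.mem_piFinset]
      constructor
      · intro h i
        by_cases hi : i ∈ S
        · rw [← h] at hi
          have hi2 := (mem_filter.mp hi).2
          rw [h] at hi
          simp [hi, hi2]
        · have : ¬ (a i ≠ c i) := fun hc => hi (h ▸ mem_filter.mpr ⟨mem_univ _, hc⟩)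
          simp only [hi, if_false, mem_singleton]
          exact not_not.mp this
      · intro h
        ext i
        simp only [mem_filter, mem_univ, true_and]
        have hi := h i
        by_cases his : i ∈ S
        · simp only [his, if_true, mem_erase, mem_univ, and_true] at hi
          exact ⟨fun _ => his, fun _ => hi⟩
        · simp only [his, if_false, mem_singleton] at hi
          exact ⟨fun hc => absurd hi hc, fun hc => absurd hc his⟩
    rw [this, Fintype.card_piFinset]
    have h2 : ∀ i : ι, (if i ∈ S then (univ : Finset (ZMod 3)).erase (c i) else {c i}).card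
        = if i ∈ S then 2 else 1 := by
      intro i
      split_ifs
      · rw [card_erase_of_mem (mem_univ _)]
        rfl
      · simp
    rw [Finset.prod_congr rfl fun i _ => h2 i]
    rw [Finset.prod_ite]
    simp
  have hdec : ((univ : Finset (ι → ZMod 3)).filter (fun a => hammingDist a c = k)).card
      = ∑ S ∈ powersetCard k (univ : Finset ι), ((univ : Finset (ι → ZMod 3)).filter
        (fun a => univ.filter (fun i => a i ≠ c i) = S)).card := by
    rw [Finset.card_eq_sum_card_fiberwise
      (f := fun a : ι → ZMod 3 => univ.filter (fun i => a i ≠ c i))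
      (t := powersetCard k (univ : Finset ι))]
    · refine Finset.sum_congr rfl fun S hS => ?_
      congr 1
      ext a
      simp only [mem_filter, mem_univ, true_and]
      constructor
      · exact fun h => h.2
      · intro h
        refine ⟨?_, h⟩
        have := (mem_powersetCard.mp hS).2
        unfold hammingDist
        rw [h, this]
    · intro a ha
      have ha' : hammingDist a c = k := by simpa using ha
      simp only [mem_coe, mem_powersetCard]
      exact ⟨subset_univ _, ha'⟩
  rw [hdec, Finset.sum_congr rfl fun S _ => hfib S]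
  rw [Finset.sum_congr rfl (g := fun _ => 2 ^ k)]
  · rw [Finset.sum_const, card_powersetCard, smul_eq_mul, card_univ, mul_comm]
  · intro S hS
    rw [(mem_powersetCard.mp hS).2]

end Pool.Agent.Helper61.CD
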